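import Pool.Agent.H575.ES.StmLow

/-!
# Project ES: the lower bound for the number of the quadratic twists
-/

set_option autoImplicit false

namespace Pool.Agent.H183.ES

open NumberField IsDedekindDomain Finset Filter Topology
open Pool.Agent.Q51.EL (Par)

section ideals

variable {F : Type} [Field F] [NumberField F]

/-- the exponent of `v` in the ideal `I` -/
noncomputable def ex (v : HeightOneSpectrum (𝓞 F)) (I : Ideal (𝓞 F)) : ℕ :=
  multiplicity v.asIdeal I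

theorem maxPow_eq (v : HeightOneSpectrum (𝓞 F)) {I : Ideal (𝓞 F)} (hI : I ≠ 0) :
    v.maxPowDividing I = v.asIdeal ^ ex v I :=
  IsDedekindDomain.HeightOneSpectrum.maxPowDividing_eq_pow_multiplicity hI v

theorem ex_finite {I : Ideal (𝓞 F)} (hI : I ≠ 0) : {v : HeightOneSpectrum (𝓞 F) | ex v I ≠ 0}.Finite := by
  have h := Ideal.hasFiniteMulSupport hI
  refine Set.Finite.subset h fun v hv => ?_
  rw [Function.mem_mulSupport, maxPow_eq v hI]
  intro h1
  have h2 : v.asIdeal ∣ 1 := by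
    rw [← h1]
    exact dvd_pow_self _ hv
  exact v.isPrime.ne_top (Ideal.isUnit_iff.1 (isUnit_of_dvd_one h2))

theorem val_eq (v : HeightOneSpectrum (𝓞 F)) {D : 𝓞 F} (hD : D ≠ 0) :
    v.valuation F (D : F) = WithZero.exp (-(ex v (Ideal.span {D}) : ℤ)) := by
  have h1 := v.valuation_of_algebraMap (K := F) D
  have h2 := v.intValuation_eq_exp_neg_multiplicity hD
  rw [show (D : F) = algebraMap (𝓞 F) F D from rfl, h1, h2]
  rfl

theorem par_iff (v : HeightOneSpectrum (𝓞 F)) {D : 𝓞 F} (hD : D ≠ 0) :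
    Par v (D : F) 1 ↔ ex v (Ideal.span {D}) % 2 = 1 := by
  unfold Pool.Agent.Q51.EL.Par
  rw [val_eq v hD]
  constructor
  · rintro ⟨k, hk⟩
    rw [WithZero.exp_inj] at hk
    omega
  · intro h
    refine ⟨-(((ex v (Ideal.span {D}) : ℤ) + 1) / 2), ?_⟩
    rw [WithZero.exp_inj]
    omega

/-- classes modulo squares have the same odd primes -/
theorem par_of_sq (v : HeightOneSpectrum (𝓞 F)) {D D' : F} (hD : D ≠ 0) (hD' : D' ≠ 0)
    (h : IsSquare (D * D')) (hp : Par v D 1) : Par v D' 1 := by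
  obtain ⟨z, hz⟩ := h
  have hz0 : z ≠ 0 := by
    rintro rfl
    rw [mul_zero] at hz
    exact mul_ne_zero hD hD' hz
  obtain ⟨k, hk⟩ := hp
  have hzv : v.valuation F z ≠ 0 := (Valuation.ne_zero_iff _).2 hz0
  obtain ⟨c, hc⟩ : ∃ c : ℤ, v.valuation F z = WithZero.exp c :=
    ⟨WithZero.log (v.valuation F z), (WithZero.exp_log hzv).symm⟩
  have hDv' : v.valuation F D' ≠ 0 := (Valuation.ne_zero_iff _).2 hD'
  obtain ⟨d, hd⟩ : ∃ d : ℤ, v.valuation F D' = WithZero.exp d :=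
    ⟨WithZero.log (v.valuation F D'), (WithZero.exp_log hDv').symm⟩
  have h1 := congrArg (v.valuation F) hz
  rw [map_mul, map_mul, hk, hd, hc, ← WithZero.exp_add, ← WithZero.exp_add, WithZero.exp_inj] at h1
  refine ⟨c - 1 - k, ?_⟩
  rw [hd, WithZero.exp_inj]
  omega

/-- the product of the odd primes -/
noncomputable def Jd (D : F) : Ideal (𝓞 F) :=
  ∏ᶠ (v : HeightOneSpectrum (𝓞 F)) (_ : Par v D 1), v.asIdeal

/-- the square part -/
noncomputable def Md (D : 𝓞 F) : Ideal (𝓞 F) :=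
  ∏ᶠ (v : HeightOneSpectrum (𝓞 F)), v.asIdeal ^ (ex v (Ideal.span {D}) / 2)

theorem Jd_congr {D D' : F} (hD : D ≠ 0) (hD' : D' ≠ 0) (h : IsSquare (D * D')) :
    Jd D = Jd D' := by
  unfold Jd
  refine finprod_congr fun v => ?_
  have h1 : Par v D 1 = Par v D' 1 := propext
    ⟨par_of_sq v hD hD' h, par_of_sq v hD' hD (by rwa [mul_comm])⟩
  rw [h1]

omit [NumberField F] in
theorem span_ne {D : 𝓞 F} (hD : D ≠ 0) : Ideal.span {D} ≠ 0 := by
  rw [Ne, Ideal.zero_eq_bot, Ideal.span_singleton_eq_bot]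
  exact hD

theorem Jd_eq {D : 𝓞 F} (hD : D ≠ 0) :
    Jd (D : F) = ∏ᶠ v : HeightOneSpectrum (𝓞 F), v.asIdeal ^ (ex v (Ideal.span {D}) % 2) := by
  classical
  unfold Jd
  refine finprod_congr fun v => ?_
  rw [finprod_eq_if]
  split_ifs with h
  · rw [(par_iff v hD).1 h, pow_one]
  · have : ex v (Ideal.span {D}) % 2 = 0 := by
      have := mt (par_iff v hD).2 h
      omega
    rw [this, pow_zero]

theorem fin_mod {D : 𝓞 F} (hD : D ≠ 0) : Function.HasFiniteMulSupport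
    fun v : HeightOneSpectrum (𝓞 F) => v.asIdeal ^ (ex v (Ideal.span {D}) % 2) := by
  refine Set.Finite.subset (ex_finite (span_ne hD)) fun v hv => ?_
  intro h
  apply hv
  simp only [h, Nat.zero_mod, pow_zero]

theorem fin_div {D : 𝓞 F} (hD : D ≠ 0) : Function.HasFiniteMulSupport
    fun v : HeightOneSpectrum (𝓞 F) => v.asIdeal ^ (ex v (Ideal.span {D}) / 2) := by
  refine Set.Finite.subset (ex_finite (span_ne hD)) fun v hv => ?_
  intro h
  apply hv
  simp only [h, Nat.zero_div, pow_zero]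

theorem span_eq {D : 𝓞 F} (hD : D ≠ 0) : Ideal.span {D} = Jd (D : F) * Md D ^ 2 := by
  rw [Jd_eq hD]
  unfold Md
  rw [finprod_pow (fin_div hD)]
  have h1 : Function.HasFiniteMulSupport
      fun v : HeightOneSpectrum (𝓞 F) => (v.asIdeal ^ (ex v (Ideal.span {D}) / 2)) ^ 2 := by
    refine Set.Finite.subset (fin_div hD) fun v hv => ?_
    intro h
    apply hv
    simp only [h, one_pow]
  rw [← finprod_mul_distrib (fin_mod hD) h1]
  refine (Ideal.finprod_heightOneSpectrum_factorization (span_ne hD)).symm.trans ?_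
  refine finprod_congr fun v => ?_
  rw [maxPow_eq v (span_ne hD), ← pow_mul, ← pow_add]
  congr 1
  omega

theorem norm_Jd {D : 𝓞 F} (hD : D ≠ 0) : Ideal.absNorm (Jd (D : F)) = Pool.Agent.H575.ES.cond (D : F) := by
  classical
  rw [Jd_eq hD]
  have h := MonoidHom.map_finprod (Ideal.absNorm : Ideal (𝓞 F) →*₀ ℕ).toMonoidHom (fin_mod hD)
  refine (show _ = _ from h).trans ?_
  unfold Pool.Agent.H575.ES.cond
  refine finprod_congr fun v => ?_
  rw [finprod_eq_if]
  split_ifs with h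
  · rw [(par_iff v hD).1 h, pow_one]
    rfl
  · have : ex v (Ideal.span {D}) % 2 = 0 := by
      have := mt (par_iff v hD).2 h
      omega
    rw [this, pow_zero]
    exact map_one _

theorem norm_span {D : 𝓞 F} (hD : D ≠ 0) :
    Ideal.absNorm (Ideal.span {D}) = Pool.Agent.H575.ES.cond (D : F) * Ideal.absNorm (Md D) ^ 2 := by
  rw [span_eq hD, map_mul, map_pow, norm_Jd hD]

end ideals

section abstract_counting

theorem card_filter_le {α : Type} {P : α → Prop} (S : Finset {a // P a}) (g : α → ℕ) (n : ℕ)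
    (hfin : {a | g a = n}.Finite) :
    (S.filter fun I => g I.1 = n).card ≤ Nat.card {a // g a = n} := by
  classical
  have : Finite {a // g a = n} := hfin
  have h1 := Nat.card_le_card_of_injective
    (α := {x // x ∈ S.filter fun I => g I.1 = n}) (β := {a // g a = n})
    (fun x => ⟨x.1.1, (Finset.mem_filter.1 x.2).2⟩) (fun x y h => by
      have h2 := congrArg Subtype.val h
      exact Subtype.ext (Subtype.ext h2))
  rwa [Nat.card_eq_fintype_card, Fintype.card_coe] at h1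

theorem card_le_finset {α : Type} {N : Type} {P : N → Prop} (j : N → α)
    (hj : Function.Injective j) (S : Finset α) (h : ∀ x, P x → j x ∈ S) :
    Nat.card {x // P x} ≤ S.card := by
  classical
  have h1 := Nat.card_le_card_of_injective
    (α := {x // P x}) (β := {x // x ∈ S})
    (fun x => ⟨j x.1, h x.1 x.2⟩) (fun x y h => by
      have h2 := congrArg Subtype.val h
      exact Subtype.ext (hj h2))
  rwa [Nat.card_eq_fintype_card (α := {x // x ∈ S}), Fintype.card_coe] at h1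

end abstract_counting

section counting

variable (F : Type) [Field F] [NumberField F]

/-- the number of the ideals of norm `n` -/
noncomputable def aN (n : ℕ) : ℕ := Nat.card {I : Ideal (𝓞 F) // Ideal.absNorm I = n}

theorem summable_aN : ∃ y : ℝ, 1 < y ∧ y < 2 ∧
    Summable fun n : ℕ => ‖LSeries.term (fun n => (aN F n : ℂ)) (y : ℂ) n‖ := by
  have h1 := tendsto_sub_one_mul_dedekindZeta_nhdsGT F
  have h0 : (dedekindZeta_residue F : ℂ) ≠ 0 := by
    exact_mod_cast dedekindZeta_residue_ne_zero F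
  have h2 : ∀ᶠ s : ℝ in 𝓝[>] 1, ((s : ℂ) - 1) * dedekindZeta F s ≠ 0 := by
    refine h1.eventually_ne ?_
    exact h0
  have h3 : ∀ᶠ s : ℝ in 𝓝[>] 1, s < 2 := by
    have : Set.Iio (2 : ℝ) ∈ 𝓝 (1 : ℝ) := Iio_mem_nhds (by norm_num)
    exact mem_nhdsWithin_of_mem_nhds this
  have h4 : ∀ᶠ s : ℝ in 𝓝[>] 1, 1 < s := eventually_mem_nhdsWithin
  obtain ⟨y, hy, hy2, hy1⟩ := (h2.and (h3.and h4)).exists
  refine ⟨y, hy1, hy2, ?_⟩
  have h5 : dedekindZeta F y ≠ 0 := right_ne_zero_of_mul hy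
  have h6 : LSeriesSummable (fun n => (aN F n : ℂ)) (y : ℂ) := by
    by_contra hcon
    apply h5
    unfold dedekindZeta
    exact tsum_eq_zero_of_not_summable hcon
  exact h6.norm

theorem fin_le (n : ℕ) : {I : Ideal (𝓞 F) | Ideal.absNorm I ≤ n}.Finite :=
  Ideal.finite_setOfPred_absNorm_le n

theorem summable_ideals :
    Summable fun I : {I : Ideal (𝓞 F) // I ≠ 0} => ((Ideal.absNorm I.1 : ℝ) ^ 2)⁻¹ := by
  classical
  obtain ⟨y, hy1, hy2, hs⟩ := summable_aN F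
  refine summable_of_sum_le (c := ∑' n : ℕ, ‖LSeries.term (fun n => (aN F n : ℂ)) (y : ℂ) n‖)
    (fun I => by positivity) fun S => ?_
  have hpos : ∀ I : {I : Ideal (𝓞 F) // I ≠ 0}, Ideal.absNorm I.1 ≠ 0 := fun I => by
    rw [Ne, Ideal.absNorm_eq_zero_iff]
    exact I.2
  calc ∑ I ∈ S, ((Ideal.absNorm I.1 : ℝ) ^ 2)⁻¹
      = ∑ n ∈ S.image fun I => Ideal.absNorm I.1,
          ∑ I ∈ S with Ideal.absNorm I.1 = n, ((Ideal.absNorm I.1 : ℝ) ^ 2)⁻¹ :=
        (Finset.sum_fiberwise_of_maps_to (fun I hI => Finset.mem_image_of_mem _ hI) _).symm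
    _ ≤ ∑ n ∈ S.image fun I => Ideal.absNorm I.1,
          ‖LSeries.term (fun n => (aN F n : ℂ)) (y : ℂ) n‖ := by
        refine Finset.sum_le_sum fun n hn => ?_
        obtain ⟨I0, hI0, hn0⟩ := Finset.mem_image.1 hn
        have hn' : n ≠ 0 := hn0 ▸ hpos I0
        have hn1 : (1 : ℝ) ≤ n := by exact_mod_cast Nat.one_le_iff_ne_zero.2 hn'
        rw [Finset.sum_congr rfl (g := fun _ => ((n : ℝ) ^ 2)⁻¹) (fun I hI => by
          rw [(Finset.mem_filter.1 hI).2]), Finset.sum_const, nsmul_eq_mul]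
        have hfin : {I : Ideal (𝓞 F) | Ideal.absNorm I = n}.Finite :=
          (fin_le F n).subset fun I hI => le_of_eq hI
        have hcard : (S.filter fun I => Ideal.absNorm I.1 = n).card ≤ aN F n := by
          exact card_filter_le S (fun I => Ideal.absNorm I) n hfin
        rw [LSeries.norm_term_eq, if_neg hn', Complex.norm_natCast, Complex.ofReal_re,
          div_eq_mul_inv]
        have h2 : (n : ℝ) ^ y ≤ (n : ℝ) ^ 2 := by
          rw [← Real.rpow_natCast]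
          exact Real.rpow_le_rpow_of_exponent_le hn1 (by push_cast; linarith)
        have h3 : 0 < (n : ℝ) ^ y := Real.rpow_pos_of_pos (by linarith) _
        have h4 : (((S.filter fun I => Ideal.absNorm I.1 = n).card : ℕ) : ℝ) ≤ (aN F n : ℝ) := by
          exact_mod_cast hcard
        exact mul_le_mul h4 (inv_anti₀ h3 h2) (by positivity) (by positivity)
    _ ≤ _ := Summable.sum_le_tsum _ (fun n _ => norm_nonneg _) hs

/-- the nonzero principal ideals of bounded norm -/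
noncomputable def PX (X : ℝ) : Finset (Ideal (𝓞 F)) :=
  (show {I : Ideal (𝓞 F) | (Ideal.absNorm I : ℝ) ≤ X ∧ I ≠ 0 ∧
    ∃ D : 𝓞 F, I = Ideal.span {D}}.Finite from
    (fin_le F ⌊X⌋₊).subset fun _ hI => Nat.le_floor hI.1).toFinset

theorem mem_PX {X : ℝ} {I : Ideal (𝓞 F)} : I ∈ PX F X ↔
    (Ideal.absNorm I : ℝ) ≤ X ∧ I ≠ 0 ∧ ∃ D : 𝓞 F, I = Ideal.span {D} := by
  unfold PX
  rw [Set.Finite.mem_toFinset]
  rfl

theorem lower_PX : ∃ c : ℝ, 0 < c ∧ ∀ X : ℝ, 1 ≤ X → c * X ≤ ((PX F X).card : ℝ) := by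
  classical
  have h1 := NumberField.Ideal.tendsto_norm_le_and_mk_eq_div_atTop F (C := 1)
  obtain ⟨L, hL⟩ : ∃ L : ℝ, L = (2 ^ InfinitePlace.nrRealPlaces F *
    (2 * Real.pi) ^ InfinitePlace.nrComplexPlaces F * Units.regulator F) /
            (Units.torsionOrder F * Real.sqrt |discr F|) := ⟨_, rfl⟩
  have hL0 : 0 < L := by
    rw [hL]
    have h2 := Units.regulator_pos F
    have h3 : (0 : ℝ) < Units.torsionOrder F := by exact_mod_cast Units.torsionOrder_pos F
    have h4 : (0 : ℝ) < |(discr F : ℝ)| := by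
      exact abs_pos.2 (by exact_mod_cast discr_ne_zero F)
    have h5 := Real.sqrt_pos.2 h4
    have h6 := Real.pi_pos
    positivity
  rw [← hL] at h1
  obtain ⟨s0, hs0⟩ := Filter.eventually_atTop.1
    (h1.eventually (lt_mem_nhds (show L / 2 < L by linarith)))
  have hcard : ∀ X : ℝ, 0 ≤ X → Nat.card {I : nonZeroDivisors (Ideal (𝓞 F)) //
      (Ideal.absNorm (I : Ideal (𝓞 F)) : ℝ) ≤ X ∧ ClassGroup.mk0 I = 1} ≤ (PX F X).card := by
    intro X hX
    refine card_le_finset (fun x : nonZeroDivisors (Ideal (𝓞 F)) => (x : Ideal (𝓞 F)))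
      Subtype.val_injective (PX F X) fun x hx => ?_
    have h3 := (ClassGroup.mk0_eq_one_iff x.2).1 hx.2
    obtain ⟨D, hD⟩ := h3.principal
    exact (mem_PX F).2 ⟨hx.1, nonZeroDivisors.coe_ne_zero x, D, hD⟩
  have hone : ∀ X : ℝ, 1 ≤ X → 1 ≤ (PX F X).card := by
    intro X hX
    rw [Nat.one_le_iff_ne_zero, ← Nat.pos_iff_ne_zero, Finset.card_pos]
    refine ⟨1, (mem_PX F).2 ⟨by simpa using hX, one_ne_zero, 1, ?_⟩⟩
    rw [Ideal.span_singleton_one, Ideal.one_eq_top]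
  have hs1 : 0 < max s0 1 := lt_of_lt_of_le one_pos (le_max_right _ _)
  refine ⟨min (L / 2) (1 / max s0 1), lt_min (by positivity) (by positivity), fun X hX => ?_⟩
  rcases le_total (max s0 1) X with h | h
  · have h2 := hs0 X ((le_max_left _ _).trans h)
    have hX0 : 0 < X := by linarith
    rw [lt_div_iff₀ hX0] at h2
    have h3 : (Nat.card {I : nonZeroDivisors (Ideal (𝓞 F)) //
      (Ideal.absNorm (I : Ideal (𝓞 F)) : ℝ) ≤ X ∧ ClassGroup.mk0 I = 1} : ℝ) ≤
        ((PX F X).card : ℝ) := by exact_mod_cast hcard X hX0.le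
    calc min (L / 2) (1 / max s0 1) * X ≤ L / 2 * X := by
          gcongr
          exact min_le_left _ _
      _ ≤ _ := h2.le.trans h3
  · have h2 : (1 : ℝ) ≤ ((PX F X).card : ℝ) := by exact_mod_cast hone X hX
    calc min (L / 2) (1 / max s0 1) * X ≤ 1 / max s0 1 * max s0 1 := by
          gcongr
          exact min_le_right _ _
      _ = 1 := by field_simp
      _ ≤ _ := h2

theorem summable_all :
    Summable fun I : Ideal (𝓞 F) => ((Ideal.absNorm I : ℝ) ^ 2)⁻¹ := by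
  refine (Function.Injective.summable_iff (g := (Subtype.val : {I : Ideal (𝓞 F) // I ≠ 0} → _))
    Subtype.val_injective fun I hI => ?_).1 (summable_ideals F)
  have h0 : I = 0 := by
    by_contra h
    exact hI ⟨⟨I, h⟩, rfl⟩
  rw [h0, map_zero]
  simp

end counting

/-- valid sets of representatives -/
def V {F : Type} [Field F] [NumberField F] (X : ℝ) (𝒟 : Finset F) : Prop :=
  (∀ D ∈ 𝒟, D ≠ 0 ∧ (Pool.Agent.H575.ES.cond D : ℝ) ≤ X) ∧
    ∀ D ∈ 𝒟, ∀ D' ∈ 𝒟, D ≠ D' → ¬ IsSquare (D * D')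

theorem exists_max {α : Type} (P : Finset α → Prop) (h0 : P ∅) (B : ℕ)
    (hB : ∀ 𝒟, P 𝒟 → 𝒟.card ≤ B) : ∃ 𝒟, P 𝒟 ∧ ∀ 𝒟', P 𝒟' → 𝒟'.card ≤ 𝒟.card := by
  classical
  have h1 : ∃ n, ∃ 𝒟, P 𝒟 ∧ B - 𝒟.card = n := ⟨_, ∅, h0, rfl⟩
  obtain ⟨𝒟, hP, hn⟩ := Nat.find_spec h1
  refine ⟨𝒟, hP, fun 𝒟' hP' => ?_⟩
  have h2 := Nat.find_min' h1 ⟨𝒟', hP', rfl⟩
  have h3 := hB 𝒟 hP
  have h4 := hB 𝒟' hP'
  omega

section fibres

variable {F : Type} [Field F] [NumberField F]

omit [NumberField F] in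
theorem ne_zero_coe {D : 𝓞 F} (hD : D ≠ 0) : (D : F) ≠ 0 := by
  intro h
  apply hD
  exact_mod_cast h

theorem Md_ne {D : 𝓞 F} (hD : D ≠ 0) : Md D ≠ 0 := by
  intro h
  have h1 := span_eq hD
  rw [h] at h1
  apply span_ne hD
  rw [h1]
  simp

theorem cond_pos {D : 𝓞 F} (hD : D ≠ 0) : 1 ≤ Pool.Agent.H575.ES.cond (D : F) := by
  rw [Nat.one_le_iff_ne_zero]
  intro h
  have h1 := norm_span hD
  rw [h, zero_mul, Ideal.absNorm_eq_zero_iff] at h1
  exact span_ne hD h1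

/-- A set of principal ideals with the same square part gives inequivalent classes. -/
theorem fibre {X : ℝ} (g : Ideal (𝓞 F) → 𝓞 F) (A : Finset (Ideal (𝓞 F))) (M : Ideal (𝓞 F))
    (hA : ∀ I ∈ A, (Ideal.absNorm I : ℝ) ≤ X ∧ I = Ideal.span {g I} ∧ g I ≠ 0 ∧ Md (g I) = M) :
    ∃ 𝒟 : Finset F, V (X * ((Ideal.absNorm M : ℝ) ^ 2)⁻¹) 𝒟 ∧ 𝒟.card = A.card ∧
      ∀ D ∈ 𝒟, 1 ≤ Pool.Agent.H575.ES.cond D := by
  classical
  have hinj : ∀ I ∈ A, ∀ I' ∈ A, (g I : F) = (g I' : F) → I = I' := by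
    intro I hI I' hI' h
    have h1 : g I = g I' := by exact_mod_cast h
    rw [(hA I hI).2.1, (hA I' hI').2.1, h1]
  refine ⟨A.image fun I => (g I : F), ⟨?_, ?_⟩, ?_, ?_⟩
  · intro D hD
    obtain ⟨I, hI, rfl⟩ := Finset.mem_image.1 hD
    obtain ⟨h1, h2, h3, h4⟩ := hA I hI
    refine ⟨ne_zero_coe h3, ?_⟩
    have h5 := norm_span h3
    rw [← h2, h4] at h5
    have h6 : (Ideal.absNorm M : ℝ) ≠ 0 := by
      rw [← h4]
      exact_mod_cast (Ideal.absNorm_eq_zero_iff.not.2 (Md_ne h3))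
    rw [← div_eq_mul_inv, le_div_iff₀ (by positivity)]
    calc (Pool.Agent.H575.ES.cond (g I : F) : ℝ) * (Ideal.absNorm M : ℝ) ^ 2 =
          (Ideal.absNorm I : ℝ) := by rw [h5]; push_cast; rfl
      _ ≤ X := h1
  · intro D hD D' hD' hne hsq
    obtain ⟨I, hI, rfl⟩ := Finset.mem_image.1 hD
    obtain ⟨I', hI', rfl⟩ := Finset.mem_image.1 hD'
    obtain ⟨h1, h2, h3, h4⟩ := hA I hI
    obtain ⟨h1', h2', h3', h4'⟩ := hA I' hI'
    have h5 := Jd_congr (ne_zero_coe h3) (ne_zero_coe h3') hsq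
    have h6 : I = I' := by
      rw [h2, h2', span_eq h3, span_eq h3', h5, h4, h4']
    exact hne (by rw [h6])
  · exact Finset.card_image_of_injOn fun I hI I' hI' h => hinj I hI I' hI' h
  · intro D hD
    obtain ⟨I, hI, rfl⟩ := Finset.mem_image.1 hD
    exact cond_pos (hA I hI).2.2.1

end fibres

theorem low : Pool.Agent.H575.ES.S_LOW := by
  classical
  intro F _ _ hU
  obtain ⟨C, hC, hU⟩ := hU
  obtain ⟨c0, hc0, hlow⟩ := lower_PX F
  have hε : 0 < c0 / (2 * C) := by positivity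
  obtain ⟨S, hS⟩ := summable_iff_vanishing_norm.1 (summable_all F) (c0 / (2 * C)) hε
  refine ⟨c0 / (2 * (S.card + 1)), by positivity, fun X hX => ?_⟩
  have hX0 : 0 < X := by linarith
  obtain ⟨𝒟, hV, hmx⟩ := exists_max (V (F := F) X) ⟨by simp, by simp⟩ ⌊C * X⌋₊
    (fun 𝒟 h => Nat.le_floor (hU X 𝒟 hX h.1 h.2))
  refine ⟨𝒟, hV.1, hV.2, ?_⟩
  -- generators
  obtain ⟨g, hg⟩ : ∃ g : Ideal (𝓞 F) → 𝓞 F, ∀ I ∈ PX F X, I = Ideal.span {g I} ∧ g I ≠ 0 := by
    refine ⟨fun I => if h : ∃ D : 𝓞 F, I = Ideal.span {D} then h.choose else 0, fun I hI => ?_⟩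
    obtain ⟨h1, h2, h3⟩ := (mem_PX F).1 hI
    have h4 : I = Ideal.span {if h : ∃ D : 𝓞 F, I = Ideal.span {D} then h.choose else 0} := by
      rw [dif_pos h3]
      exact h3.choose_spec
    refine ⟨h4, fun h5 => h2 ?_⟩
    simp only at h5
    rw [h4, h5]
    simp
  -- the fibres
  have hfib : ∀ M : Ideal (𝓞 F), ∃ 𝒟' : Finset F, V (X * ((Ideal.absNorm M : ℝ) ^ 2)⁻¹) 𝒟' ∧
      𝒟'.card = ((PX F X).filter fun I => Md (g I) = M).card ∧
      ∀ D ∈ 𝒟', 1 ≤ Pool.Agent.H575.ES.cond D := by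
    intro M
    refine fibre g _ M fun I hI => ?_
    obtain ⟨h1, h2⟩ := Finset.mem_filter.1 hI
    exact ⟨((mem_PX F).1 h1).1, (hg I h1).1, (hg I h1).2, h2⟩
  have hb1 : ∀ M : Ideal (𝓞 F), ((PX F X).filter fun I => Md (g I) = M).card ≤ 𝒟.card := by
    intro M
    obtain ⟨𝒟', h1, h2, h3⟩ := hfib M
    rw [← h2]
    refine hmx 𝒟' ⟨fun D hD => ⟨(h1.1 D hD).1, (h1.1 D hD).2.trans ?_⟩, h1.2⟩
    have h4 : ((Ideal.absNorm M : ℝ) ^ 2)⁻¹ ≤ 1 := by
      rcases Nat.eq_zero_or_pos (Ideal.absNorm M) with h | h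
      · rw [h]; simp
      · have h5 : (1 : ℝ) ≤ (Ideal.absNorm M : ℝ) := by exact_mod_cast h
        exact inv_le_one_of_one_le₀ (one_le_pow₀ h5)
    exact mul_le_of_le_one_right hX0.le h4
  have hb2 : ∀ M : Ideal (𝓞 F), (((PX F X).filter fun I => Md (g I) = M).card : ℝ) ≤
      C * X * ((Ideal.absNorm M : ℝ) ^ 2)⁻¹ := by
    intro M
    obtain ⟨𝒟', h1, h2, h3⟩ := hfib M
    rw [← h2]
    rcases Finset.eq_empty_or_nonempty 𝒟' with h | ⟨D, hD⟩
    · rw [h, Finset.card_empty, Nat.cast_zero]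
      positivity
    · have h4 : (1 : ℝ) ≤ X * ((Ideal.absNorm M : ℝ) ^ 2)⁻¹ := by
        have h5 : (1 : ℝ) ≤ Pool.Agent.H575.ES.cond D := by exact_mod_cast h3 D hD
        exact h5.trans (h1.1 D hD).2
      have h6 := hU _ 𝒟' h4 h1.1 h1.2
      linarith
  -- the sum
  have hsum := Finset.card_eq_sum_card_image (fun I => Md (g I)) (PX F X)
  set T := (PX F X).image fun I => Md (g I) with hT
  have h1 : ((PX F X).card : ℝ) ≤ S.card * 𝒟.card + C * X * (c0 / (2 * C)) := by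
    rw [hsum, ← Finset.sum_filter_add_sum_filter_not T (fun M => M ∈ S)]
    push_cast
    apply add_le_add
    · calc ∑ M ∈ T with M ∈ S, (((PX F X).filter fun I => Md (g I) = M).card : ℝ)
          ≤ ∑ M ∈ T with M ∈ S, (𝒟.card : ℝ) :=
            Finset.sum_le_sum fun M _ => by exact_mod_cast hb1 M
        _ = ((T.filter fun M => M ∈ S).card : ℝ) * 𝒟.card := by
            rw [Finset.sum_const, nsmul_eq_mul]
        _ ≤ S.card * 𝒟.card := by
            gcongr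
            intro M hM
            exact (Finset.mem_filter.1 hM).2
    · calc ∑ M ∈ T with ¬ M ∈ S, (((PX F X).filter fun I => Md (g I) = M).card : ℝ)
          ≤ ∑ M ∈ T with ¬ M ∈ S, C * X * ((Ideal.absNorm M : ℝ) ^ 2)⁻¹ :=
            Finset.sum_le_sum fun M _ => hb2 M
        _ = C * X * ∑ M ∈ T with ¬ M ∈ S, ((Ideal.absNorm M : ℝ) ^ 2)⁻¹ := by
            rw [Finset.mul_sum]
        _ ≤ C * X * (c0 / (2 * C)) := by
            refine mul_le_mul_of_nonneg_left ?_ (by positivity)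
            refine (le_abs_self _).trans (hS _ ?_).le
            rw [Finset.disjoint_left]
            intro M hM hM'
            exact (Finset.mem_filter.1 hM).2 hM'
  have h2 := hlow X hX
  have h3 : C * X * (c0 / (2 * C)) = c0 * X / 2 := by field_simp
  rw [h3] at h1
  have h4 : (0 : ℝ) ≤ 𝒟.card := by positivity
  rw [div_mul_eq_mul_div, div_le_iff₀ (by positivity)]
  linarith

end Pool.Agent.H183.ES
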